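import Mathlib

/-!
# OB, block T1: the equations of transcendental numbers over a transcendence basis
-/

set_option autoImplicit false

namespace Pool.Agent.Helper95.OB

open Polynomial

/-- division by the greatest common divisor -/
theorem bez {K : Type*} [Field K] {ι : Type*} (S : Finset ι) (h : ι → K[X]) (hne : ∃ μ ∈ S, h μ ≠ 0) :
    ∃ (g : K[X]) (h' u : ι → K[X]), g ≠ 0 ∧ (∀ μ ∈ S, h μ = g * h' μ) ∧ ∑ μ ∈ S, u μ * h' μ = 1 := by
  classical
  obtain ⟨g, hg⟩ := (IsPrincipalIdealRing.principal (Submodule.span K[X] (h '' (S : Set ι)))).principal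
  have h1 : ∀ μ ∈ S, h μ ∈ Submodule.span K[X] {g} := by
    intro μ hμ
    rw [← hg]
    exact Submodule.subset_span ⟨μ, hμ, rfl⟩
  have h2 : ∀ μ, ∃ q, μ ∈ S → h μ = g * q := by
    intro μ
    by_cases hμ : μ ∈ S
    · obtain ⟨q, hq⟩ := Submodule.mem_span_singleton.1 (h1 μ hμ)
      exact ⟨q, fun _ => by rw [← hq, smul_eq_mul, mul_comm]⟩
    · exact ⟨0, fun h => absurd h hμ⟩
  choose h' hh' using h2
  have h3 : g ∈ Submodule.span K[X] (h '' (S : Set ι)) := by
    rw [hg]; exact Submodule.mem_span_singleton_self g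
  obtain ⟨u, hu⟩ := (Submodule.mem_span_image_finset_iff_exists_fun' K[X]).1 h3
  have hg0 : g ≠ 0 := by
    rintro rfl
    obtain ⟨μ, hμ, hne⟩ := hne
    exact hne (by rw [hh' μ hμ, zero_mul])
  refine ⟨g, h', u, hg0, hh', ?_⟩
  have h4 : g * ∑ μ ∈ S, u μ * h' μ = g * 1 := by
    rw [Finset.mul_sum, mul_one]
    conv_rhs => rw [← hu]
    refine Finset.sum_congr rfl fun μ hμ => ?_
    rw [smul_eq_mul, hh' μ hμ]; ring
  exact mul_left_cancel₀ hg0 h4

/-- the equation of an algebraic element -/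
theorem rel {K L : Type*} [Field K] [Field L] [Algebra K L] {r : ℕ} (t : Fin r → L)
    (ht : AlgebraicIndependent K t) (y : L) (hy : IsAlgebraic (Algebra.adjoin K (Set.range t)) y) :
    ∃ (S : Finset (Fin r →₀ ℕ)) (h : (Fin r →₀ ℕ) → K[X]), (∃ μ ∈ S, h μ ≠ 0) ∧
      ∑ μ ∈ S, aeval y (h μ) * ∏ j, t j ^ μ j = 0 := by
  classical
  obtain ⟨p, hp0, hp⟩ := hy
  set e := ht.aevalEquiv with he
  set q : ℕ → MvPolynomial (Fin r) K := fun i => e.symm (p.coeff i) with hq
  set N := p.natDegree + 1 with hN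
  set S : Finset (Fin r →₀ ℕ) := (Finset.range N).biUnion fun i => (q i).support with hS
  set h : (Fin r →₀ ℕ) → K[X] := fun μ => ∑ i ∈ Finset.range N, monomial i ((q i).coeff μ) with hh
  refine ⟨S, h, ?_, ?_⟩
  · have h1 : p.coeff p.natDegree ≠ 0 := by
      rw [coeff_natDegree]; exact leadingCoeff_ne_zero.2 hp0
    have h2 : q p.natDegree ≠ 0 := by
      rw [hq]; simpa using h1
    obtain ⟨μ, hμ⟩ := MvPolynomial.ne_zero_iff.1 h2
    refine ⟨μ, ?_, ?_⟩
    · rw [hS, Finset.mem_biUnion]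
      exact ⟨p.natDegree, Finset.mem_range.2 (Nat.lt_succ_self _), MvPolynomial.mem_support_iff.2 hμ⟩
    · intro h3
      have h4 := congrArg (fun f => coeff f p.natDegree) h3
      simp only [hh, finset_sum_coeff, coeff_monomial, coeff_zero] at h4
      rw [Finset.sum_ite_eq' (Finset.range N) p.natDegree] at h4
      simp only [Finset.mem_range, hN, Nat.lt_succ_self, if_true] at h4
      exact hμ h4
  · have h1 : ∀ i, ((p.coeff i : Algebra.adjoin K (Set.range t)) : L) =
        ∑ μ ∈ (q i).support, algebraMap K L ((q i).coeff μ) * ∏ j, t j ^ μ j := by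
      intro i
      have h2 : ((p.coeff i : Algebra.adjoin K (Set.range t)) : L) = MvPolynomial.aeval t (q i) := by
        rw [← ht.algebraMap_aevalEquiv, ← he, hq]
        simp
      rw [h2, MvPolynomial.aeval_def, MvPolynomial.eval₂_eq']
    have h3 : ∀ i ∈ Finset.range N, ((p.coeff i : Algebra.adjoin K (Set.range t)) : L) =
        ∑ μ ∈ S, algebraMap K L ((q i).coeff μ) * ∏ j, t j ^ μ j := by
      intro i hi
      rw [h1 i]
      refine Finset.sum_subset (fun μ hμ => Finset.mem_biUnion.2 ⟨i, hi, hμ⟩) fun μ _ hμ => ?_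
      rw [MvPolynomial.notMem_support_iff.1 hμ, map_zero, zero_mul]
    have h4 : (0 : L) = ∑ i ∈ Finset.range N, ((p.coeff i : Algebra.adjoin K (Set.range t)) : L) * y ^ i := by
      rw [← hp, aeval_eq_sum_range]
      refine Finset.sum_congr rfl fun i _ => ?_
      rw [Algebra.smul_def]; rfl
    rw [h4]
    have h5 : ∀ μ ∈ S, aeval y (h μ) * ∏ j, t j ^ μ j =
        ∑ i ∈ Finset.range N, (algebraMap K L ((q i).coeff μ) * ∏ j, t j ^ μ j) * y ^ i := by
      intro μ _
      rw [hh]
      simp only [map_sum, aeval_monomial]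
      rw [Finset.sum_mul]
      exact Finset.sum_congr rfl fun i _ => by ring
    rw [Finset.sum_congr rfl h5, Finset.sum_comm]
    refine Finset.sum_congr rfl fun i hi => ?_
    rw [h3 i hi, Finset.sum_mul]

/-- a finite set contains a finite family over which it is algebraic -/
theorem basis {K L : Type*} [Field K] [Field L] [Algebra K L] (Y : Finset L) :
    ∃ (r : ℕ) (t : Fin r → L), AlgebraicIndependent K t ∧
      ∀ y ∈ Y, IsAlgebraic (Algebra.adjoin K (Set.range t)) y := by
  classical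
  have hne : (Y.powerset.filter fun B : Finset L => AlgebraicIndependent K fun b : (B : Set L) => (b : L)).Nonempty := by
    refine ⟨∅, Finset.mem_filter.2 ⟨Finset.empty_mem_powerset Y, ?_⟩⟩
    have : IsEmpty ((∅ : Finset L) : Set L) := by simp
    exact algebraicIndependent_empty_type_iff.2 (algebraMap K L).injective
  obtain ⟨B, hB, hmax⟩ := Finset.exists_max_image _ Finset.card hne
  rw [Finset.mem_filter, Finset.mem_powerset] at hB
  set e := B.equivFin with he
  refine ⟨B.card, fun i => ((e.symm i : B) : L), ?_, ?_⟩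
  · exact hB.2.comp (fun i : Fin B.card => (⟨(e.symm i : B), (e.symm i).2⟩ : (B : Set L)))
      (fun i j hij => e.symm.injective (Subtype.ext (by simpa using hij)))
  · intro y hy
    have hr : Set.range (fun i => ((e.symm i : B) : L)) = (B : Set L) := by
      ext z
      constructor
      · rintro ⟨i, rfl⟩; exact (e.symm i).2
      · intro hz; exact ⟨e ⟨z, hz⟩, by simp⟩
    rw [hr]
    by_contra htr
    by_cases hyB : y ∈ (B : Set L)
    · exact htr (isAlgebraic_algebraMap (⟨y, Algebra.subset_adjoin hyB⟩ : Algebra.adjoin K (B : Set L)))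
    · have h1 : AlgebraicIndepOn K (id : L → L) (insert y (B : Set L)) := by
        refine (AlgebraicIndepOn.insert_iff hyB).2 ⟨hB.2, ?_⟩
        rw [Set.image_id]
        exact htr
      have h2 : insert y B ∈ Y.powerset.filter fun B : Finset L => AlgebraicIndependent K fun b : (B : Set L) => (b : L) := by
        rw [Finset.mem_filter, Finset.mem_powerset]
        refine ⟨Finset.insert_subset hy hB.1, ?_⟩
        rw [Finset.coe_insert]
        exact h1
      have h3 := hmax _ h2
      rw [Finset.card_insert_of_notMem (by simpa using hyB)] at h3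
      omega

/-- **T1** -/
theorem teq (Y : Finset ℂ) (hY : ∀ y ∈ Y, Transcendental ℚ y) :
    ∃ (r : ℕ) (t : Fin r → ℂ), AlgebraicIndependent (algebraicClosure ℚ ℂ).toSubfield t ∧
      ∀ y ∈ Y, ∃ (S : Finset (Fin r →₀ ℕ)) (h u : (Fin r →₀ ℕ) → Polynomial ℂ),
        (∀ μ i, IsAlgebraic ℚ ((h μ).coeff i)) ∧ (∀ μ i, IsAlgebraic ℚ ((u μ).coeff i)) ∧
        ∑ μ ∈ S, u μ * h μ = 1 ∧ ∑ μ ∈ S, (h μ).eval y * ∏ j, t j ^ μ j = 0 := by
  obtain ⟨r, t, ht, hal⟩ := basis (K := (algebraicClosure ℚ ℂ).toSubfield) Y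
  have hval : ∀ a : (algebraicClosure ℚ ℂ).toSubfield, IsAlgebraic ℚ (a : ℂ) := fun a =>
    mem_algebraicClosure_iff.1 a.2
  refine ⟨r, t, ht, fun y hy => ?_⟩
  obtain ⟨S, h, hne, hrel⟩ := rel t ht y (hal y hy)
  obtain ⟨g, h', u, hg, hfac, hb⟩ := bez S h hne
  set φ := algebraMap (algebraicClosure ℚ ℂ).toSubfield ℂ with hφ
  refine ⟨S, fun μ => (h' μ).map φ, fun μ => (u μ).map φ, ?_, ?_, ?_, ?_⟩
  · intro μ i
    rw [coeff_map]
    exact hval _
  · intro μ i
    rw [coeff_map]
    exact hval _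
  · have h1 := congrArg (Polynomial.map φ) hb
    rw [Polynomial.map_sum, Polynomial.map_one] at h1
    rw [← h1]
    exact Finset.sum_congr rfl fun μ _ => (Polynomial.map_mul φ).symm
  · have hgy : aeval y g ≠ 0 := by
      intro h0
      have h1 : IsAlgebraic (algebraicClosure ℚ ℂ).toSubfield y := ⟨g, hg, h0⟩
      have h2 : IsAlgebraic (algebraicClosure ℚ ℂ) y := h1
      have : Algebra.IsAlgebraic ℚ (algebraicClosure ℚ ℂ) := algebraicClosure.isAlgebraic ℚ ℂ
      have h3 : IsAlgebraic ℚ y := h2.restrictScalars ℚ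
      exact hY y hy h3
    have h2 : aeval y g * ∑ μ ∈ S, ((h' μ).map φ).eval y * ∏ j, t j ^ μ j = aeval y g * 0 := by
      rw [mul_zero, ← hrel, Finset.mul_sum]
      refine Finset.sum_congr rfl fun μ hμ => ?_
      rw [hfac μ hμ, map_mul, eval_map_algebraMap]
      ring
    exact mul_left_cancel₀ hgy h2

end Pool.Agent.Helper95.OB
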